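import Pool.Agent.MP_ea150c_mp.H20.SpecR

/-! The Newton polygon of the characteristic polynomial lies above the row polygon. -/

namespace Pool.Agent.MP_ea150c_mp.H70

open Polynomial

/-- A finite sum of terms of size at most `B` has size at most `B`. -/
theorem gn_sum_le {A J : Type*} [AddCommMonoid A] (G : A → ℝ) (h0 : G 0 = 0)
    (hna : IsNonarchimedean G) (B : ℝ) (hB : 0 ≤ B) (s : Finset J) (f : J → A)
    (hf : ∀ j ∈ s, G (f j) ≤ B) : G (∑ j ∈ s, f j) ≤ B := by
  classical
  induction s using Finset.induction_on with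
  | empty => simpa [h0] using hB
  | insert a s ha ih =>
    rw [Finset.sum_insert ha]
    refine (hna _ _).trans (max_le (hf a (Finset.mem_insert_self _ _)) (ih ?_))
    intro j hj
    exact hf j (Finset.mem_insert_of_mem hj)

/-- The ultrametric Leibniz bound with row and column scales. -/
theorem gn_det_le {A ι : Type*} [CommRing A] [Nontrivial A] [Fintype ι] [DecidableEq ι]
    (G : AbsoluteValue A ℝ) (hna : IsNonarchimedean G) (N : Matrix ι ι A) (m c : ι → ℝ)
    (hm : ∀ i, 0 ≤ m i) (hc : ∀ i, 0 < c i) (hN : ∀ i j, G (N i j) * c i ≤ m i * c j) :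
    G N.det ≤ ∏ i, m i := by
  rw [Matrix.det_apply]
  refine gn_sum_le G (map_zero G) hna _ (Finset.prod_nonneg fun i _ => hm i) _ _ ?_
  intro σ _
  have h1 : G (Equiv.Perm.sign σ • ∏ i, N (σ i) i) = G (∏ i, N (σ i) i) := by
    rcases Int.units_eq_one_or (Equiv.Perm.sign σ) with h | h
    · rw [h, one_smul]
    · rw [h, Units.neg_smul, one_smul, AbsoluteValue.map_neg]
  rw [h1, map_prod]
  have hcp : 0 < ∏ i, c i := Finset.prod_pos fun i _ => hc i
  refine le_of_mul_le_mul_right ?_ hcp
  calc (∏ i, G (N (σ i) i)) * ∏ i, c i = ∏ i, (G (N (σ i) i) * c (σ i)) := by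
        rw [Finset.prod_mul_distrib, Equiv.prod_comp σ c]
    _ ≤ ∏ i, (m (σ i) * c i) :=
        Finset.prod_le_prod (fun i _ => mul_nonneg (G.nonneg _) (hc _).le) fun i _ => hN _ _
    _ = (∏ i, m i) * ∏ i, c i := by
        rw [Finset.prod_mul_distrib, Equiv.prod_comp σ m]

/-- The bound for a general algebraically closed ultrametric field, radius form. -/
theorem gn_radius {K ι : Type*} [NormedField K] [IsUltrametricDist K] [IsAlgClosed K]
    [Fintype ι] [DecidableEq ι] (M : Matrix ι ι K) (r c : ι → ℝ) (ρ : ℝ) (hρ : 0 < ρ)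
    (hc : ∀ i, 0 < c i) (hM : ∀ i j, ‖M i j‖ * c i ≤ r i * c j) :
    (M.charpoly.roots.map fun γ => max ρ ‖γ‖).prod ≤ ∏ i, max ρ (r i) := by
  let v : AbsoluteValue K ℝ := NormedField.toAbsoluteValue K
  have hv : ∀ x, v x = ‖x‖ := fun _ => rfl
  have hna : IsNonarchimedean v := fun x y => by
    rw [hv, hv, hv]; exact IsUltrametricDist.norm_add_le_max x y
  let G : AbsoluteValue K[X] ℝ :=
    { toFun := gaussNorm v ρ
      map_mul' := gaussNorm_mul hna hρ
      nonneg' := fun q => q.gaussNorm_nonneg v hρ.le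
      eq_zero' := fun q => gaussNorm_eq_zero_iff v q (fun _ hx => (AbsoluteValue.eq_zero v).mp hx) hρ
      add_le' := (gaussNorm_isAbsoluteValue hna hρ).abv_add' }
  have hG : ∀ q, G q = gaussNorm v ρ q := fun _ => rfl
  have hGna : IsNonarchimedean G := isNonarchimedean_gaussNorm v hna hρ.le
  have hGC : ∀ x : K, G (C x) = ‖x‖ := fun x => by rw [hG, gaussNorm_C, hv]
  have hGX : G X = ρ := by
    rw [hG, ← monomial_one_one_eq_X, gaussNorm_monomial, hv]; simp
  have hlow : ∀ γ : K, max ρ ‖γ‖ ≤ G (X - C γ) := by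
    intro γ
    refine max_le ?_ ?_
    · have h := le_gaussNorm v (X - C γ) hρ.le 1
      rw [hv] at h
      simpa [hG, coeff_C] using h
    · have h := le_gaussNorm v (X - C γ) hρ.le 0
      rw [hv] at h
      simpa [hG] using h
  have hsplit : M.charpoly = (M.charpoly.roots.map fun γ => X - C γ).prod :=
    (IsAlgClosed.splits M.charpoly).eq_prod_roots_of_monic M.charpoly_monic
  have h1 : (M.charpoly.roots.map fun γ => max ρ ‖γ‖).prod ≤ G M.charpoly := by
    conv_rhs => rw [hsplit]
    rw [map_multiset_prod, Multiset.map_map]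
    exact Multiset.prod_map_le_prod_map₀ _ _ (fun γ _ => le_max_of_le_left hρ.le)
      fun γ _ => hlow γ
  refine h1.trans ?_
  refine gn_det_le G hGna M.charmatrix (fun i => max ρ (r i)) c
    (fun i => le_max_of_le_left hρ.le) hc ?_
  intro i j
  rcases eq_or_ne i j with rfl | hij
  · rw [Matrix.charmatrix_apply_eq]
    refine mul_le_mul_of_nonneg_right ?_ (hc i).le
    rw [sub_eq_add_neg]
    refine (hGna _ _).trans (max_le_max hGX.le ?_)
    rw [AbsoluteValue.map_neg, hGC]
    exact le_of_mul_le_mul_right (hM i i) (hc i)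
  · rw [Matrix.charmatrix_apply_ne _ _ _ hij, AbsoluteValue.map_neg, hGC]
    exact (hM i j).trans (mul_le_mul_of_nonneg_right (le_max_right _ _) (hc j).le)

theorem sGN : H20.SGN := by
  intro p _ ι _ _ M r c R hR hc hM
  have h := gn_radius M r c R⁻¹ (inv_pos.mpr hR) hc hM
  have hmax : ∀ x : ℝ, max 1 (x * R) = max R⁻¹ x * R := fun x => by
    rw [max_mul_of_nonneg _ _ hR.le, inv_mul_cancel₀ hR.ne']
  have hcard : M.charpoly.roots.card = Fintype.card ι := by
    rw [← M.charpoly_natDegree_eq_dim]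
    exact ((IsAlgClosed.splits M.charpoly).natDegree_eq_card_roots).symm
  simp only [hmax]
  rw [Multiset.prod_map_mul, Finset.prod_mul_distrib, Multiset.map_const', Multiset.prod_replicate,
    hcard, Finset.prod_const, Finset.card_univ]
  exact mul_le_mul_of_nonneg_right h (pow_nonneg hR.le _)

end Pool.Agent.MP_ea150c_mp.H70
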