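import Pool.Agent.MP_ea150c_mp.H20.SpecT
import Pool.Agent.MP_ea150c_mp.H9.Div

/-! Invariance of the functions of a graph model, and the part `c = 0` of the count. -/

namespace Pool.Agent.MP_ea150c_mp.H70

open Pool.Agent.MP_ea150c_mp.H49 MvPolynomial

/-- The functions of a graph model only depend on the extra variables and the two forms. -/
theorem lb_congr {I E A : Type} [DecidableEq I] [Fintype I] [Fintype E] [DecidableEq E]
    [CommRing A] (G : PG I E) (R S : Finset I) (x y : Var I (Ex R) → A)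
    (h0 : ∀ t, y (Sum.inr t) = x (Sum.inr t))
    (hq : ∀ v, y (Sum.inl (v, 0)) * y (Sum.inl (v, 3)) + y (Sum.inl (v, 1)) * y (Sum.inl (v, 2)) =
      x (Sum.inl (v, 0)) * x (Sum.inl (v, 3)) + x (Sum.inl (v, 1)) * x (Sum.inl (v, 2)))
    (hb : ∀ u v, y (Sum.inl (u, 0)) * y (Sum.inl (v, 3)) + y (Sum.inl (u, 3)) * y (Sum.inl (v, 0)) +
        y (Sum.inl (u, 1)) * y (Sum.inl (v, 2)) + y (Sum.inl (u, 2)) * y (Sum.inl (v, 1)) =
      x (Sum.inl (u, 0)) * x (Sum.inl (v, 3)) + x (Sum.inl (u, 3)) * x (Sum.inl (v, 0)) +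
        x (Sum.inl (u, 1)) * x (Sum.inl (v, 2)) + x (Sum.inl (u, 2)) * x (Sum.inl (v, 1)))
    (i : Io G S) :
    eval₂ (Int.castRingHom A) y ((G.model R S).f i) =
      eval₂ (Int.castRingHom A) x ((G.model R S).f i) := by
  have hal : ∀ v, eval₂ (Int.castRingHom A) y (alP R v) = eval₂ (Int.castRingHom A) x (alP R v) := by
    intro v
    unfold alP
    split_ifs
    · rw [eval₂_zero, eval₂_zero]
    · rw [eval₂_X, eval₂_X, h0]
  have hbe : ∀ v, eval₂ (Int.castRingHom A) y (beP R v) = eval₂ (Int.castRingHom A) x (beP R v) := by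
    intro v
    unfold beP
    rw [eval₂_X, eval₂_X, h0]
  have hed : ∀ a b, eval₂ (Int.castRingHom A) y (edgeP R a b) =
      eval₂ (Int.castRingHom A) x (edgeP R a b) := by
    intro a b
    rcases a with _ | u <;> rcases b with _ | v
    · simp only [edgeP, eval₂_one]
    · exact hbe v
    · exact hbe u
    · simp only [edgeP, xxP, eval₂_add, eval₂_mul, eval₂_X, hal, hbe, hb]
  rcases i with v | e | v
  · show eval₂ _ y (qP R v.1) = eval₂ _ x (qP R v.1)
    simp only [qP, eval₂_add, eval₂_mul, eval₂_X, hal, hbe, add_assoc, hq]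
  · exact hed _ _
  · exact hal _

/-- Translation of the coordinates `b_v`. -/
def lbMove {I τ A : Type} [CommRing A] (c : I → A) (x : Var I τ → A) : Var I τ → A
  | Sum.inl (v, t) => x (Sum.inl (v, t)) + if t = 3 then c v else 0
  | Sum.inr t => x (Sum.inr t)

theorem lbMove_inj {I τ A : Type} [CommRing A] (c : I → A) :
    Function.Injective (lbMove c : (Var I τ → A) → Var I τ → A) := by
  intro x y h
  funext z
  have h1 := congrFun h z
  rcases z with ⟨v, t⟩ | t
  · exact add_right_cancel h1
  · exact h1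

theorem sLb : H20.SLb := by
  intro I E _ _ _ _ G R S F _ _
  classical
  refine ⟨fun i n n' x =>
    lb_congr G R S x (gshift n n' x) (fun _ => rfl) (fun v => ?_) (fun u v => ?_) i, ?_⟩
  · simp only [gshift, Fin.reduceEq, if_true, if_false]; ring
  · simp only [gshift, Fin.reduceEq, if_true, if_false]; ring
  · unfold H20.cntAll
    rw [Nat.card_eq_fintype_card, Fintype.card_subtype, ← Fintype.card_fun]
    refine H9.dvd_of_moves _ (fun x v => x (Sum.inl (v, 3))) fun b b' =>
      ⟨lbMove (b' - b), lbMove_inj _, fun x hx hb => ⟨?_, ?_⟩⟩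
    · simp only [Finset.mem_filter, Finset.mem_univ, true_and] at hx ⊢
      refine ⟨fun v => ?_, fun i => ?_⟩
      · simp only [lbMove, Fin.reduceEq, if_false, add_zero, hx.1]
      · rw [lb_congr G R S x (lbMove (b' - b) x) (fun _ => rfl) (fun v => ?_) (fun u v => ?_) i]
        · exact hx.2 i
        · simp only [lbMove, Fin.reduceEq, if_false, add_zero, hx.1, zero_mul]
        · simp only [lbMove, Fin.reduceEq, if_false, add_zero, hx.1, zero_mul, mul_zero]
    · funext v
      have h1 : x (Sum.inl (v, 3)) = b v := congrFun hb v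
      simp only [lbMove, if_true, h1, Pi.sub_apply, add_sub_cancel]

end Pool.Agent.MP_ea150c_mp.H70
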