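import Pool.Agent.MP_ea150c_mp.H49.SpecK

/-! Divisibility of the rows and the support of the Dwork matrix. -/

namespace Pool.Agent.MP_ea150c_mp.H70

open Pool.Agent.MP_ea150c_mp.H49

theorem kr_nu_sum {ι : Type} (s : Finset ι) (l : ι → ℕ) :
    nu (∑ i ∈ s, l i) ≤ ∑ i ∈ s, nu (l i) := by
  classical
  induction s using Finset.induction_on with
  | empty => simp [nu]
  | insert a s ha ih =>
    rw [Finset.sum_insert ha, Finset.sum_insert ha]
    generalize ∑ i ∈ s, l i = t at *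
    generalize ∑ i ∈ s, nu (l i) = t' at *
    unfold nu at *
    omega

theorem kr_kap (h : K1) (p : ℕ) [Fact p.Prime] (hp : 7 ≤ p) {A : Type} [CommRing A]
    [Algebra ℤ_[p] A] (m' m : ℕ) (f G : A) :
    algebraMap ℤ_[p] A ((p : ℤ_[p]) ^ nu m') ∣ kap p m' m f G := by
  unfold kap
  refine Finset.dvd_sum fun j _ => ?_
  rw [Algebra.smul_def]
  exact Dvd.dvd.mul_right (map_dvd _ (h p hp m' m j).2) _

theorem krow (h : K1) : KRow := by
  intro p _ hp σ ι _ _ _ fp a b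
  unfold ent
  generalize (fun i => ofPoly (fun _ : σ => true) ℤ_[p] (fp i)) = f
  generalize (fun i => divp p (ofPoly (fun _ : σ => true) ℤ_[p] (fp i) ^ p -
      phi0 (fun _ : σ => true) ℤ_[p] p (ofPoly (fun _ : σ => true) ℤ_[p] (fp i)))) = G
  have h1 : (∏ i, algebraMap ℤ_[p] (Tor ℤ_[p] (fun _ : σ => true)) ((p : ℤ_[p]) ^ nu (a.2 i))) ∣
      Ker p f G a.2 b.2 :=
    Finset.prod_dvd_prod_of_dvd _ _ fun i _ => kr_kap h p hp _ _ _ _
  rw [← map_prod, Finset.prod_pow_eq_pow_sum] at h1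
  obtain ⟨z, hz⟩ := h1
  rw [hz, ← Algebra.smul_def, AddMonoidAlgebra.coeff_smul_apply, smul_eq_mul]
  exact Dvd.dvd.mul_right (pow_dvd_pow _ (kr_nu_sum _ _)) _

section Supp
variable {Λ σ Γ : Type} [CommRing Λ] [Fintype σ] [AddCommGroup Γ] (tor : σ → Bool) (wt : σ → Γ)

/-- Polynomials of degree at most `N` and weight `w`. -/
def KT (Λ : Type) [CommRing Λ] (N : ℤ) (w : Γ) : Submodule Λ (Tor Λ tor) :=
  supp tor Λ fun u => (∀ x, 0 ≤ u x) ∧ ∑ x, u x ≤ N ∧ ∑ x, u x • wt x = w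

variable {tor wt}

theorem KT_congr {N N' : ℤ} {w w' : Γ} {a : Tor Λ tor} (h : a ∈ KT tor wt Λ N w) (hN : N ≤ N')
    (hw : w = w') : a ∈ KT tor wt Λ N' w' := fun u hu =>
  ⟨(h u hu).1, (h u hu).2.1.trans hN, (h u hu).2.2.trans hw⟩

theorem KT_mul {N N' : ℤ} {w w' : Γ} {a b : Tor Λ tor} (ha : a ∈ KT tor wt Λ N w)
    (hb : b ∈ KT tor wt Λ N' w') : a * b ∈ KT tor wt Λ (N + N') (w + w') := by
  classical
  intro u hu
  have h1 := AddMonoidAlgebra.support_coeff_mul_subset a b (Finsupp.mem_support_iff.2 hu)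
  obtain ⟨v, hv, v', hv', rfl⟩ := Finset.mem_add.1 h1
  obtain ⟨a1, a2, a3⟩ := ha v (Finsupp.mem_support_iff.1 hv)
  obtain ⟨b1, b2, b3⟩ := hb v' (Finsupp.mem_support_iff.1 hv')
  have e : ∀ x, (v + v').1 x = v.1 x + v'.1 x := fun _ => rfl
  refine ⟨fun x => ?_, ?_, ?_⟩
  · rw [e]; exact add_nonneg (a1 x) (b1 x)
  · simp only [e, Finset.sum_add_distrib]; exact add_le_add a2 b2
  · simp only [e, add_smul, Finset.sum_add_distrib, a3, b3]

theorem KT_single (u : Mon tor) (c : Λ) (h0 : ∀ x, 0 ≤ u.1 x) :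
    (AddMonoidAlgebra.single u c : Tor Λ tor) ∈
      KT tor wt Λ (∑ x, u.1 x) (∑ x, u.1 x • wt x) := by
  classical
  intro v hv
  have e : u = v := by
    by_contra hne
    exact hv (by rw [AddMonoidAlgebra.coeff_single, Finsupp.single_apply, if_neg hne])
  subst e
  exact ⟨h0, le_rfl, rfl⟩

theorem KT_one : (1 : Tor Λ tor) ∈ KT tor wt Λ 0 0 := by
  have h := KT_single (Λ := Λ) (wt := wt) (0 : Mon tor) 1 fun _ => le_rfl
  exact KT_congr h (by simp) (by simp)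

theorem KT_pow {N : ℤ} {w : Γ} {a : Tor Λ tor} (ha : a ∈ KT tor wt Λ N w) (k : ℕ) :
    a ^ k ∈ KT tor wt Λ (k * N) ((k : ℤ) • w) := by
  induction k with
  | zero => simpa using KT_one
  | succ k ih =>
    rw [pow_succ]
    exact KT_congr (KT_mul ih ha) (by push_cast; linarith) (by push_cast; rw [add_smul, one_smul])

theorem KT_prod {J : Type} (s : Finset J) (N : J → ℤ) (w : J → Γ) (a : J → Tor Λ tor)
    (ha : ∀ j ∈ s, a j ∈ KT tor wt Λ (N j) (w j)) :
    ∏ j ∈ s, a j ∈ KT tor wt Λ (∑ j ∈ s, N j) (∑ j ∈ s, w j) := by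
  classical
  induction s using Finset.induction_on with
  | empty => simpa using KT_one
  | insert j s hj ih =>
    rw [Finset.prod_insert hj, Finset.sum_insert hj, Finset.sum_insert hj]
    exact KT_mul (ha j (Finset.mem_insert_self _ _))
      (ih fun i hi => ha i (Finset.mem_insert_of_mem hi))

variable [DecidableEq σ]

theorem KT_tX (i : σ) : tX tor Λ i ∈ KT tor wt Λ 1 (wt i) := by
  have h := KT_single (Λ := Λ) (wt := wt) (⟨Pi.single i 1, single_mem tor i⟩ : Mon tor) 1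
    fun x => by
      by_cases hx : x = i
      · subst hx; simp
      · simp [hx]
  unfold tX monoZ
  rw [dif_pos (single_mem tor i)]
  refine KT_congr h (by simp) ?_
  rw [Finset.sum_eq_single i]
  · simp
  · intro x _ hx; simp [hx]
  · simp

theorem KT_ofPoly (f : MvPolynomial σ ℤ) (D : ℕ) (w : Γ) (hD : f.totalDegree ≤ D)
    (hw : ∀ m ∈ f.support, ∑ x, (m x : ℤ) • wt x = w) : ofPoly tor Λ f ∈ KT tor wt Λ D w := by
  have e : ofPoly tor Λ f =
      ∑ m ∈ f.support, ((f.coeff m : ℤ) : Λ) • ∏ x, tX tor Λ x ^ m x := by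
    unfold ofPoly
    rw [MvPolynomial.coe_eval₂Hom, MvPolynomial.eval₂_eq']
    refine Finset.sum_congr rfl fun m _ => ?_
    rw [Algebra.smul_def, map_intCast, eq_intCast]
  rw [e]
  refine Submodule.sum_mem _ fun m hm => Submodule.smul_mem _ _ ?_
  refine KT_congr (KT_prod Finset.univ _ _ _ fun x _ => KT_pow (KT_tX x) (m x)) ?_ (hw m hm)
  have h1 : (m.sum fun _ e => e) ≤ D := (MvPolynomial.le_totalDegree hm).trans hD
  rw [Finsupp.sum_fintype _ _ fun _ => rfl] at h1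
  simp only [mul_one]
  exact_mod_cast h1

omit [DecidableEq σ] in
theorem KT_phi0 {N : ℤ} {w : Γ} {a : Tor Λ tor} (ha : a ∈ KT tor wt Λ N w) (p : ℕ) :
    phi0 tor Λ p a ∈ KT tor wt Λ (p * N) ((p : ℤ) • w) := by
  classical
  intro u hu
  have h0 : (phi0 tor Λ p a).coeff = Finsupp.mapDomain (fun v : Mon tor => p • v) a.coeff := rfl
  rw [h0] at hu
  obtain ⟨v, hv, rfl⟩ := Finset.mem_image.1
    (Finsupp.mapDomain_support (Finsupp.mem_support_iff.2 hu))
  obtain ⟨a1, a2, a3⟩ := ha v (Finsupp.mem_support_iff.1 hv)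
  have e : ∀ x, (p • v).1 x = (p : ℤ) * v.1 x := fun x => by simp
  refine ⟨fun x => ?_, ?_, ?_⟩
  · rw [e]; exact mul_nonneg (Int.natCast_nonneg p) (a1 x)
  · simp only [e, ← Finset.mul_sum]
    exact mul_le_mul_of_nonneg_left a2 (Int.natCast_nonneg p)
  · simp only [e, mul_smul, ← Finset.smul_sum, a3]

end Supp

theorem kr_kc_zero (p : ℕ) [Fact p.Prime] (m' m j : ℕ) (h : ¬ p * j + (m + 1) ≤ p * (m' + 1)) :
    kc p m' m j = 0 := by
  have h0 : kq p m' m j = 0 := if_neg h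
  unfold kc
  split_ifs with h1
  · exact Subtype.ext (by simp [h0])
  · rfl

theorem KT_kap {σ Γ : Type} [Fintype σ] [AddCommGroup Γ] {tor : σ → Bool} {wt : σ → Γ}
    (p : ℕ) [Fact p.Prime] {N : ℤ} {w : Γ} {f G : Tor ℤ_[p] tor} (hf : f ∈ KT tor wt ℤ_[p] N w)
    (hG : G ∈ KT tor wt ℤ_[p] (p * N) ((p : ℤ) • w)) (m' m : ℕ) :
    kap p m' m f G ∈ KT tor wt ℤ_[p] (N * (p * ((m' : ℤ) + 1) - ((m : ℤ) + 1)))
      ((p * ((m' : ℤ) + 1) - ((m : ℤ) + 1)) • w) := by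
  unfold kap
  refine Submodule.sum_mem _ fun j _ => ?_
  by_cases h : p * j + (m + 1) ≤ p * (m' + 1)
  · refine Submodule.smul_mem _ _ ?_
    have e : ((p * (m' + 1) - (m + 1) - p * j : ℕ) : ℤ) =
        p * ((m' : ℤ) + 1) - ((m : ℤ) + 1) - p * j := by
      rw [Nat.sub_sub, Nat.cast_sub (by omega)]
      push_cast; ring
    refine KT_congr (KT_mul (KT_pow hf _) (KT_pow hG j)) (le_of_eq ?_) ?_
    · rw [e]; ring
    · rw [e, smul_smul, ← add_smul]
      congr 1; ring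
  · rw [kr_kc_zero p m' m j h, zero_smul]
    exact Submodule.zero_mem _

theorem ksupp (_s1 : S1) (s1p : S1p) : KSupp := by
  intro p _ _ σ ι Γ _ _ _ _ _ wt om fp D hD hw a b hab
  have hf : ∀ i, ofPoly (fun _ : σ => true) ℤ_[p] (fp i) ∈
      KT (fun _ : σ => true) wt ℤ_[p] D (om i) := fun i => KT_ofPoly _ D _ (hD i) (hw i)
  have hG : ∀ i, divp p (ofPoly (fun _ : σ => true) ℤ_[p] (fp i) ^ p -
      phi0 (fun _ : σ => true) ℤ_[p] p (ofPoly (fun _ : σ => true) ℤ_[p] (fp i))) ∈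
      KT (fun _ : σ => true) wt ℤ_[p] (p * D) ((p : ℤ) • om i) := by
    intro i
    obtain ⟨-, h2, h3, -⟩ := s1p p σ (fun _ : σ => true)
    refine h3 _ _ ?_
    rw [h2]
    exact Submodule.sub_mem (KT (fun _ : σ => true) wt ℤ_[p] (p * D) ((p : ℤ) • om i))
      (KT_pow (hf i) p) (KT_phi0 (hf i) p)
  obtain ⟨h1, h2, h3⟩ := KT_prod Finset.univ _ _ _
    (fun i _ => KT_kap p (hf i) (hG i) (a.2 i) (b.2 i)) _ hab
  simp only [Pi.sub_apply, Pi.smul_apply, smul_eq_mul] at h1 h2 h3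
  refine ⟨fun x => by have := h1 x; omega, ?_, ?_⟩
  · rw [Finset.sum_sub_distrib, ← Finset.mul_sum, ← Finset.mul_sum, Finset.sum_sub_distrib,
      ← Finset.mul_sum] at h2
    exact h2
  · have e : ∀ (n : ℕ) (g : Γ), (n + 1) • g = ((n : ℤ) + 1) • g := fun n g => by
      rw [← natCast_zsmul]; push_cast; rfl
    simp only [sub_smul, mul_smul, Finset.sum_sub_distrib, ← Finset.smul_sum] at h3
    simp only [e]
    rw [← natCast_zsmul, smul_sub, sub_eq_sub_iff_sub_eq_sub]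
    exact h3

end Pool.Agent.MP_ea150c_mp.H70
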