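import Pool.Agent.MP_ea150c_mp.H49.SpecV

/-! Row VT: adding charts in the radical keeps coboundaries; restriction along embeddings. -/

namespace Pool.Agent.MP_ea150c_mp.H70

open Pool.Agent.MP_ea150c_mp.H49

namespace VTa

variable {S L Λ : Type} [CommRing S] [Field L] [Algebra S L]

theorem loc_mono [DecidableEq Λ] (g : Λ → S) {J J' : Finset Λ} (h : J ⊆ J') {z : L}
    (hz : z ∈ Loc L g J) : z ∈ Loc L g J' := by
  obtain ⟨N, a, ha⟩ := hz
  refine ⟨N, (∏ i ∈ J' \ J, g i) ^ N * a, ?_⟩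
  rw [← Finset.prod_sdiff h, map_mul, map_mul, map_pow, ← ha]
  ring

theorem alg_mem (g : Λ → S) (J : Finset Λ) (a : S) : algebraMap S L a ∈ Loc L g J :=
  ⟨0, a, by simp⟩

theorem inv_mem [DecidableEq Λ] (g : Λ → S) {J : Finset Λ} {i : Λ} (hi : i ∈ J)
    (h0 : algebraMap S L (g i) ≠ 0) : (algebraMap S L (g i))⁻¹ ∈ Loc L g J := by
  refine ⟨1, ∏ k ∈ J.erase i, g k, ?_⟩
  rw [← Finset.mul_prod_erase J g hi, map_mul, pow_one]
  field_simp

theorem clear [DecidableEq Λ] (g : Λ → S) (J : Finset Λ) (j : Λ) {z : L}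
    (hz : z ∈ Loc L g (insert j J)) :
    ∃ N : ℕ, ∀ M, N ≤ M → algebraMap S L (g j) ^ M * z ∈ Loc L g J := by
  by_cases hj : j ∈ J
  · rw [Finset.insert_eq_of_mem hj] at hz
    refine ⟨0, fun M _ => Subring.mul_mem _ ?_ hz⟩
    exact Subring.pow_mem _ (alg_mem g J _) _
  · obtain ⟨N, a, ha⟩ := hz
    refine ⟨N, fun M hM => ?_⟩
    obtain ⟨k, rfl⟩ := Nat.exists_eq_add_of_le hM
    refine ⟨N, g j ^ k * a, ?_⟩
    rw [Finset.prod_insert hj, map_mul] at ha
    rw [map_mul, map_pow, ← ha]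
    ring

theorem rad (g : Λ → S) (T : Finset Λ) {s : S}
    (hs : s ∈ (Ideal.span (g '' (T : Set Λ))).radical) (N : ℕ) :
    ∃ (r : ℕ) (a : Λ → S), s ^ r = ∑ j ∈ T, a j * g j ^ N := by
  have h1 : Ideal.span (g '' (T : Set Λ)) ≤
      (Ideal.span ((fun j => g j ^ N) '' (T : Set Λ))).radical := by
    rw [Ideal.span_le]
    rintro _ ⟨j, hj, rfl⟩
    exact ⟨N, Ideal.subset_span ⟨j, hj, rfl⟩⟩
  have h2 := Ideal.radical_mono h1 hs
  rw [Ideal.radical_idem] at h2
  obtain ⟨r, hr⟩ := h2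
  obtain ⟨a, ha⟩ := (Submodule.mem_span_image_finset_iff_exists_fun' S).1 hr
  exact ⟨r, a, by rw [← ha]; rfl⟩

variable [LinearOrder Λ]

theorem dl_apply (x : Finset Λ → L) (J : Finset Λ) :
    dl L L x J = ∑ j ∈ J, ((-1 : L) ^ (J.filter (· < j)).card) • x (J.erase j) := rfl

theorem dl_mem (A : Subring L) (x : Finset Λ → L) (J : Finset Λ)
    (h : ∀ j ∈ J, x (J.erase j) ∈ A) : dl L L x J ∈ A := by
  rw [dl_apply]
  refine Subring.sum_mem _ fun j hj => ?_
  rw [smul_eq_mul]
  exact Subring.mul_mem _ (Subring.pow_mem _ (Subring.neg_mem _ (Subring.one_mem _)) _) (h j hj)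

theorem dl_congr (x y : Finset Λ → L) (J : Finset Λ) (h : ∀ J' ⊆ J, x J' = y J') :
    dl L L x J = dl L L y J := by
  rw [dl_apply, dl_apply]
  exact Finset.sum_congr rfl fun j _ => by rw [h _ (Finset.erase_subset j J)]

/-- The contraction. -/
noncomputable def ctr (j : Λ) (x : Finset Λ → L) : Finset Λ → L := fun J =>
  if j ∈ J then 0 else ((-1 : L) ^ (J.filter (· < j)).card) • x (insert j J)

theorem ctr_mem (A : Subring L) (j : Λ) (x : Finset Λ → L) (J : Finset Λ)
    (h : x (insert j J) ∈ A) : ctr j x J ∈ A := by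
  unfold ctr
  split_ifs
  · exact Subring.zero_mem _
  · rw [smul_eq_mul]
    exact Subring.mul_mem _ (Subring.pow_mem _ (Subring.neg_mem _ (Subring.one_mem _)) _) h

theorem ctr_eq (c1 : C1) (j : Λ) (x : Finset Λ → L) (J : Finset Λ)
    (h : dl L L x (insert j J) = 0) : x J = dl L L (ctr j x) J := by
  have h1 := congrFun ((c1 L L Λ).2.1 j x) J
  rw [Pi.add_apply, h, smul_zero, ite_self, add_zero] at h1
  exact h1

theorem step (c1 : C1) [Fintype Λ] (g : Λ → S) (T T' : Finset Λ) (hT : T ⊆ T')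
    (h0 : ∀ i, algebraMap S L (g i) ≠ 0) (i0 : Λ)
    (hr : g i0 ∈ (Ideal.span (g '' (T : Set Λ))).radical)
    (x : Finset Λ → L) (hx : ∀ J, x J ∈ Loc L g J) (hd : dl L L x = 0) (hc : CobOn L g T' x) :
    CobOn L g (insert i0 T') x := by
  obtain ⟨z, hz, hxz⟩ := hc
  set x' : Finset Λ → L := x - dl L L z with hx'
  have hx'L : ∀ J, x' J ∈ Loc L g J := fun J =>
    Subring.sub_mem _ (hx J)
      (dl_mem _ z J fun j _ => loc_mono g (Finset.erase_subset j J) (hz _))
  have hd' : dl L L x' = 0 := by rw [hx', map_sub, hd, (c1 L L Λ).1, sub_zero]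
  set y : Finset Λ → L := ctr i0 x' with hy
  have hyx : ∀ J, x' J = dl L L y J := fun J => ctr_eq c1 i0 x' J (by rw [hd']; rfl)
  have hyL : ∀ J, y J ∈ Loc L g (insert i0 J) := fun J => ctr_mem _ i0 x' J (hx'L _)
  have hy0 : ∀ J, i0 ∈ J → y J = 0 := fun J hJ => by rw [hy]; unfold ctr; rw [if_pos hJ]
  have hyj : ∀ j ∈ T, ∀ J ⊆ T', y J = dl L L (ctr j y) J := fun j hj J hJ => by
    refine ctr_eq c1 j y J ?_
    have hs : insert j J ⊆ T' := Finset.insert_subset (hT hj) hJ
    rw [← hyx, hx', Pi.sub_apply, hxz _ hs, sub_self]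
  have hcl : ∀ q : Λ × Finset Λ, ∃ N : ℕ, ∀ M, N ≤ M →
      algebraMap S L (g q.1) ^ M * ctr q.1 y q.2 ∈ Loc L g (insert i0 q.2) := fun q => by
    refine clear g _ q.1 (ctr_mem _ q.1 y q.2 ?_)
    rw [Finset.insert_comm]
    exact hyL _
  choose Nf hNf using hcl
  obtain ⟨r, a, ha⟩ := rad g T hr (Finset.univ.sup Nf)
  set N := Finset.univ.sup Nf with hN
  set u : Finset Λ → L := ∑ j ∈ T, (((algebraMap S L (g i0))⁻¹ ^ r * algebraMap S L (a j)) *
    algebraMap S L (g j) ^ N) • ctr j y with hu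
  have huL : ∀ J, u J ∈ Loc L g (insert i0 J) := fun J => by
    rw [hu, Finset.sum_apply]
    refine Subring.sum_mem _ fun j _ => ?_
    rw [Pi.smul_apply, smul_eq_mul, mul_assoc]
    refine Subring.mul_mem _ (Subring.mul_mem _ (Subring.pow_mem _
      (inv_mem g (Finset.mem_insert_self _ _) (h0 i0)) _) (alg_mem g _ _)) ?_
    exact hNf (j, J) N (Finset.le_sup (f := Nf) (Finset.mem_univ _))
  have huy : ∀ J ⊆ T', dl L L u J = y J := fun J hJ => by
    have h1 : ∑ j ∈ T, (((algebraMap S L (g i0))⁻¹ ^ r * algebraMap S L (a j)) *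
        algebraMap S L (g j) ^ N) = 1 := by
      have h2 := congrArg (algebraMap S L) ha
      rw [map_pow, map_sum] at h2
      simp only [map_mul, map_pow] at h2
      simp only [mul_assoc]
      rw [← Finset.mul_sum, ← h2, ← mul_pow, inv_mul_cancel₀ (h0 i0), one_pow]
    rw [hu, map_sum, Finset.sum_apply]
    rw [Finset.sum_congr rfl fun j hj => by
      rw [map_smul, Pi.smul_apply, ← hyj j hj J hJ, smul_eq_mul]]
    rw [← Finset.sum_mul, h1, one_mul]
  refine ⟨z + fun J => if J ⊆ insert i0 T' then y J - dl L L u J else 0, fun J => ?_,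
    fun J hJ => ?_⟩
  · refine Subring.add_mem _ (hz J) ?_
    dsimp only
    split_ifs with hJ
    · by_cases hi : i0 ∈ J
      · rw [hy0 J hi, zero_sub]
        refine Subring.neg_mem _ (dl_mem _ u J fun j _ => loc_mono g ?_ (huL _))
        exact Finset.insert_subset hi (Finset.erase_subset j J)
      · rw [huy J ((Finset.subset_insert_iff_of_notMem hi).1 hJ), sub_self]
        exact Subring.zero_mem _
    · exact Subring.zero_mem _
  · have h1 : dl L L (fun J => if J ⊆ insert i0 T' then y J - dl L L u J else 0) J =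
        dl L L (y - dl L L u) J :=
      dl_congr _ _ J fun J' hJ' => by rw [if_pos (hJ'.trans hJ)]; rfl
    rw [map_add, Pi.add_apply, h1, map_sub, (c1 L L Λ).1, sub_zero, ← hyx, hx', Pi.sub_apply]
    ring

end VTa

theorem vt (c1 : C1) : VT := by
  refine ⟨fun S L Λ _ _ _ _ _ g T h0 hr x hx hd hc => ?_, fun O E Λ Λ' _ _ _ _ _ e x J => ?_⟩
  · have key : ∀ A : Finset Λ, CobOn L g (A ∪ T) x := fun A => by
      induction A using Finset.induction_on with
      | empty => simpa using hc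
      | insert i A _ ih =>
        rw [Finset.insert_union]
        exact VTa.step c1 g T _ Finset.subset_union_right h0 i (hr i) x hx hd ih
    have h := key Finset.univ
    rwa [Finset.union_eq_left.2 (Finset.subset_univ T)] at h
  · change ∑ j ∈ J.map e.toEmbedding, ((-1 : O) ^ ((J.map e.toEmbedding).filter (· < j)).card) •
        x ((J.map e.toEmbedding).erase j) =
      ∑ j ∈ J, ((-1 : O) ^ (J.filter (· < j)).card) • x ((J.erase j).map e.toEmbedding)
    rw [Finset.sum_map]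
    refine Finset.sum_congr rfl fun j _ => ?_
    rw [Finset.map_erase, Finset.filter_map, Finset.card_map]
    have hf : J.filter ((fun k => k < e.toEmbedding j) ∘ e.toEmbedding) = J.filter (· < j) :=
      Finset.filter_congr fun k _ => e.lt_iff_lt
    rw [hf]

end Pool.Agent.MP_ea150c_mp.H70
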